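import Mathlib
import Pool.Agent.H27.NumIdxLp

namespace Pool.Agent.Results.MP_d0ed5b_an.RankOne

open scoped ENNReal

/-- numerical radius -/
noncomputable def v {𝕜 X : Type*} [RCLike 𝕜] [NormedAddCommGroup X] [NormedSpace 𝕜 X]
    (T : X →L[𝕜] X) : ℝ :=
  sSup {s | ∃ (x : X) (f : X →L[𝕜] 𝕜), ‖x‖ = 1 ∧ ‖f‖ = 1 ∧ f x = 1 ∧ s = ‖f (T x)‖}

/-- rank-one numerical index -/
noncomputable def n1 (𝕜 X : Type*) [RCLike 𝕜] [NormedAddCommGroup X] [NormedSpace 𝕜 X] : ℝ :=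
  sInf {c | ∃ T : X →L[𝕜] X, LinearMap.rank (T : X →ₗ[𝕜] X) = 1 ∧ ‖T‖ = 1 ∧ c = v T}

theorem result (𝕜 : Type*) [RCLike 𝕜] (ι : Type*) [Nontrivial ι] (p : ℝ≥0∞) [Fact (1 ≤ p)]
    (h1 : 1 < p) (ht : p ≠ ⊤) (h2 : p ≠ 2) :
    n1 𝕜 (lp (fun _ : ι => 𝕜) p) < 1 / (p.toReal ^ (1 / p.toReal) *
      (p.toReal / (p.toReal - 1)) ^ (1 / (p.toReal / (p.toReal - 1)))) := by
  classical
  obtain ⟨φ, w, c, n1, c0, c1, hc⟩ := Pool.Agent.H27.NumIdx.main_lp (𝕜 := 𝕜) (ι := ι) h1 ht h2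
  refine lt_of_le_of_lt ?_ c1
  have rk : LinearMap.rank ((φ.smulRight w : _ →L[𝕜] _) :
      lp (fun _ : ι => 𝕜) p →ₗ[𝕜] lp (fun _ : ι => 𝕜) p) = 1 := by
    apply le_antisymm
    · refine le_trans (Submodule.rank_mono (t := Submodule.span 𝕜 {w}) ?_)
        ((rank_span_le _).trans (by simp))
      rintro _ ⟨x, rfl⟩
      exact Submodule.smul_mem _ _ (Submodule.mem_span_singleton_self w)
    · rw [Cardinal.one_le_iff_ne_zero]
      intro h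
      have h3 := Submodule.rank_eq_zero.1 h
      rw [LinearMap.range_eq_bot] at h3
      have : φ.smulRight w = 0 := ContinuousLinearMap.coe_injective h3
      rw [this, norm_zero] at n1
      exact zero_ne_one n1
  refine le_trans (csInf_le ⟨0, ?_⟩ (by exact ⟨_, rk, n1, rfl⟩)) (Real.sSup_le ?_ c0)
  · rintro _ ⟨T, -, -, rfl⟩
    apply Real.sSup_nonneg
    rintro _ ⟨x, f, -, -, -, rfl⟩
    exact norm_nonneg _
  · rintro _ ⟨x, f, a, b, d, rfl⟩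
    exact hc x f a b d

end Pool.Agent.Results.MP_d0ed5b_an.RankOne
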